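import Mathlib

/-!
# Quantitative Helly theorem for the diameter, `(2+ε)d` members: common definitions

`gm w v` is the weighted Gram matrix `∑ j, w j • v j (v j)ᵀ` of a list of vectors, `bi M x y` the
bilinear form `xᵀ M⁻¹ y`, and `gx v x` the Gram matrix with weights `(1 - ⟪v j, x⟫)⁻²`.
-/

set_option autoImplicit false

namespace Pool.Agent.Helper4.QN

open scoped BigOperators RealInnerProductSpace

/-- Weighted Gram matrix of a list of vectors. -/
noncomputable def gm {d n : ℕ} (w : Fin n → ℝ) (v : Fin n → EuclideanSpace ℝ (Fin d)) :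
    Matrix (Fin d) (Fin d) ℝ :=
  ∑ j, w j • Matrix.vecMulVec (v j).ofLp (v j).ofLp

/-- The bilinear form of the inverse matrix. -/
noncomputable def bi {d : ℕ} (M : Matrix (Fin d) (Fin d) ℝ) (x y : EuclideanSpace ℝ (Fin d)) : ℝ :=
  dotProduct x.ofLp (M⁻¹.mulVec y.ofLp)

/-- Gram matrix with the weights `(1 - ⟪v j, x⟫)⁻²`. -/
noncomputable def gx {d n : ℕ} (v : Fin n → EuclideanSpace ℝ (Fin d))
    (x : EuclideanSpace ℝ (Fin d)) : Matrix (Fin d) (Fin d) ℝ :=
  gm (fun j => ((1 - ⟪v j, x⟫) ^ 2)⁻¹) v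

end Pool.Agent.Helper4.QN
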