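import Mathlib
import Pool.Agent.Helper4.QN.Defs
import Pool.Agent.Helper4.QN.St.Stubs
import Pool.Agent.Helper67.QH.DetLe
import Pool.Agent.Helper50.QH.LogBound

set_option autoImplicit false

namespace Pool.Agent.Helper4.QN

open scoped BigOperators RealInnerProductSpace
open St

theorem num_aux {r : ℝ} (hr : 0 ≤ r) : 2 * Real.log (1 + r) - r ^ 2 / (1 + r) ≤ 1 := by
  have hs : 0 < 1 + r := by linarith
  have h1 : Real.log ((1 + r) / (12 / 5)) ≤ (1 + r) / (12 / 5) - 1 :=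
    Real.log_le_sub_one_of_pos (by positivity)
  rw [Real.log_div hs.ne' (by norm_num)] at h1
  have h2 : Real.log (12 / 5) ≤ 0.8932 := by
    have h3 : (12 / 5 : ℝ) = 2 * (6 / 5) := by norm_num
    rw [h3, Real.log_mul (by norm_num) (by norm_num)]
    have h4 := Real.log_two_lt_d9
    have h5 : Real.log (6 / 5) ≤ 6 / 5 - 1 := Real.log_le_sub_one_of_pos (by norm_num)
    linarith
  have h6 : r ^ 2 / (1 + r) = (1 + r) - 2 + 1 / (1 + r) := by
    field_simp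
    ring
  rw [h6]
  have h7 : 0.7864 ≤ (1 + r) / 6 + 1 / (1 + r) := by
    rw [div_add_div _ _ (by norm_num) hs.ne', le_div_iff₀ (by positivity)]
    nlinarith [sq_nonneg (1 + r - 2.4)]
  have h8 : (1 + r) / (12 / 5) = 5 / 12 * (1 + r) := by ring
  rw [h8] at h1
  linarith

/-- Upper bound for `log det Q`. -/
theorem log_det_le {d : ℕ} {I : Type} [Fintype I] (u : I → EuclideanSpace ℝ (Fin d))
    (hu : ∀ i, ‖u i‖ ≤ 1) (c : I → ℝ) (hc : ∀ i, 0 ≤ c i) (hc1 : ∀ i, c i ≠ 0 → ‖u i‖ = 1)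
    (hiso : ∀ w : EuclideanSpace ℝ (Fin d), ∑ i, c i * ⟪u i, w⟫ ^ 2 = ‖w‖ ^ 2)
    (x : EuclideanSpace ℝ (Fin d))
    (Q : EuclideanSpace ℝ (Fin d) →L[ℝ] EuclideanSpace ℝ (Fin d))
    (hQ : ∀ i, ⟪u i, x⟫ + ‖Q (u i)‖ ≤ 1) (hx : ∀ i, ⟪u i, x⟫ < 1) (hdet : 0 < Q.det) :
    Real.log Q.det ≤ -⟪∑ i, c i • u i, x⟫ - ‖x‖ ^ 2 / (2 * (1 + ‖x‖)) := by
  have hR := norm_nonneg x
  have h1 := Helper67.QH.det_le u c hc hc1 hiso Q hdet
  have hinj : ∀ v, Q v = 0 → v = 0 := by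
    intro v hv
    have h2 : IsUnit (LinearMap.det (Q : EuclideanSpace ℝ (Fin d) →ₗ[ℝ] EuclideanSpace ℝ (Fin d))) :=
      isUnit_iff_ne_zero.2 hdet.ne'
    have h3 : LinearMap.ker (Q : EuclideanSpace ℝ (Fin d) →ₗ[ℝ] EuclideanSpace ℝ (Fin d)) = ⊥ := by
      by_contra hne
      have h4 := LinearMap.isUnit_det _ ((LinearMap.isUnit_iff_isUnit_det _).2 h2)
      have h5 : Function.Injective (Q : EuclideanSpace ℝ (Fin d) →ₗ[ℝ] EuclideanSpace ℝ (Fin d)) :=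
        ((Module.End.isUnit_iff _).1 ((LinearMap.isUnit_iff_isUnit_det _).2 h2)).1
      exact hne (LinearMap.ker_eq_bot.2 h5)
    exact (LinearMap.ker_eq_bot'.1 h3) v hv
  refine h1.trans ?_
  have hz : ∀ i, |⟪u i, x⟫| ≤ ‖x‖ := by
    intro i
    refine (abs_real_inner_le_norm _ _).trans ?_
    exact mul_le_of_le_one_left hR (hu i)
  rw [sum_inner, ← hiso x, Finset.sum_div, ← Finset.sum_neg_distrib, ← Finset.sum_sub_distrib]
  refine Finset.sum_le_sum fun i _ => ?_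
  by_cases hci : c i = 0
  · simp [hci]
  have hpos : 0 < ‖Q (u i)‖ := by
    rw [norm_pos_iff]
    intro h0
    have := hc1 i hci
    rw [hinj _ h0, norm_zero] at this
    exact zero_ne_one this
  have a1 : Real.log ‖Q (u i)‖ ≤ Real.log (1 - ⟪u i, x⟫) := by
    apply Real.log_le_log hpos
    have := hQ i
    linarith
  have a2 := Helper50.QH.log_aux (hx i)
  have a3 : ⟪u i, x⟫ ^ 2 / (2 * (1 + ‖x‖)) ≤ ⟪u i, x⟫ ^ 2 / (2 * (1 + |⟪u i, x⟫|)) := by
    apply div_le_div_of_nonneg_left (sq_nonneg _) (by positivity)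
    have := hz i
    linarith
  rw [real_inner_smul_left]
  have a4 : c i * Real.log ‖Q (u i)‖ ≤ c i * (-⟪u i, x⟫ - ⟪u i, x⟫ ^ 2 / (2 * (1 + ‖x‖))) :=
    mul_le_mul_of_nonneg_left (by linarith) (hc i)
  refine a4.trans (le_of_eq ?_)
  ring

section
variable {d n : ℕ} {I : Type} [Fintype I]

/-- Adding a facet: `1 + q ≤ e³ α`. -/
theorem lev_add (u : I → EuclideanSpace ℝ (Fin d)) (hu : ∀ i, ‖u i‖ ≤ 1) (t : Fin n → I)
    (hM : 0 < (gm (fun _ => 1) (fun j => u (t j))).det)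
    (c : I → ℝ) (hc : ∀ i, 0 ≤ c i) (hc1 : ∀ i, c i ≠ 0 → ‖u i‖ = 1)
    (hcen : ∑ i, c i • u i =
        -∑ j, bi (gm (fun _ => 1) (fun j => u (t j))) (u (t j)) (u (t j)) • u (t j))
    (hiso : ∀ w : EuclideanSpace ℝ (Fin d), ∑ i, c i * ⟪u i, w⟫ ^ 2 = ‖w‖ ^ 2)
    (α : ℝ) (hα : 1 < α)
    (hmax : ∀ (n' : ℕ) (t' : Fin n' → I), 0 < (gm (fun _ => 1) (fun j => u (t' j))).det →
        ∃ (x : EuclideanSpace ℝ (Fin d))
          (Q : EuclideanSpace ℝ (Fin d) →L[ℝ] EuclideanSpace ℝ (Fin d)),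
          (∀ i, ⟪u i, x⟫ + ‖Q (u i)‖ ≤ 1) ∧ (∀ i, ⟪u i, x⟫ < 1) ∧ 0 < Q.det ∧
          Real.log (gx (fun j => u (t' j)) x).det - 2 * Real.log Q.det - n' * Real.log α ≤
            Real.log (gm (fun _ => 1) (fun j => u (t j))).det - n * Real.log α)
    (i : I) :
    1 + bi (gm (fun _ => 1) (fun j => u (t j))) (u i) (u i) ≤ Real.exp 3 * α := by
  obtain ⟨M, hMdef⟩ : ∃ M, M = gm (fun _ => 1) (fun j => u (t j)) := ⟨_, rfl⟩
  obtain ⟨l1, l2, l3, l4, l5, -, -⟩ := leverage (fun j => u (t j)) hM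
  obtain ⟨a1, a2⟩ := add_vec (fun j => u (t j)) hM (u i)
  rw [← hMdef] at l1 l2 l3 l4 l5 a1 a2 hcen hmax hM ⊢
  set q := bi M (u i) (u i) with hq
  have hq0 : 0 ≤ q := l4 _
  set t' : Fin (n + 1) → I := Fin.cons i t with ht'
  have hcons : (fun j => u (t' j)) = (Fin.cons (u i) (fun j => u (t j)) :
      Fin (n + 1) → EuclideanSpace ℝ (Fin d)) := by
    funext j
    refine Fin.cases ?_ (fun j => ?_) j <;> simp [ht']
  have hM' : 0 < (gm (fun _ => 1) (fun j => u (t' j))).det := by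
    rw [hcons, a1]
    positivity
  obtain ⟨x, Q, hQ, hx, hdet, hval⟩ := hmax (n + 1) t' hM'
  have hR := norm_nonneg x
  have b1 := log_det_le u hu c hc hc1 hiso x Q hQ hx hdet
  have b2 := logdet_ge (fun j => u (t' j)) hM' (fun j => ((1 - ⟪u (t' j), x⟫) ^ 2)⁻¹) (fun j => by
    have := hx (t' j)
    have : 0 < 1 - ⟪u (t' j), x⟫ := by linarith
    positivity)
  change _ ≤ Real.log (gx (fun j => u (t' j)) x).det at b2
  have hlogw : ∀ j, Real.log (((1 - ⟪u j, x⟫) ^ 2)⁻¹) = 2 * (-Real.log (1 - ⟪u j, x⟫)) := by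
    intro j
    rw [Real.log_inv, Real.log_pow]
    push_cast
    ring
  have hlog1 : ∀ j, ⟪u j, x⟫ ≤ -Real.log (1 - ⟪u j, x⟫) := by
    intro j
    have h1 : 0 < 1 - ⟪u j, x⟫ := by linarith [hx j]
    have h2 := Real.log_le_sub_one_of_pos h1
    linarith
  have hlog2 : ∀ j, -Real.log (1 + ‖x‖) ≤ -Real.log (1 - ⟪u j, x⟫) := by
    intro j
    have h1 : 0 < 1 - ⟪u j, x⟫ := by linarith [hx j]
    have h3 : |⟪u j, x⟫| ≤ ‖x‖ :=
      (abs_real_inner_le_norm _ _).trans (mul_le_of_le_one_left hR (hu j))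
    have h2 : Real.log (1 - ⟪u j, x⟫) ≤ Real.log (1 + ‖x‖) := by
      apply Real.log_le_log h1
      have := neg_abs_le ⟪u j, x⟫
      linarith
    linarith
  simp only [hlogw] at b2
  rw [hcons, a1, Real.log_mul hM.ne' (by positivity), Fin.sum_univ_succ] at b2
  simp only [Fin.cons_zero, Fin.cons_succ, ht', a2] at b2
  -- the new vector
  have c1 : -Real.log (1 + ‖x‖) ≤
      (bi M (u i) (u i) - bi M (u i) (u i) ^ 2 / (1 + q)) * (-Real.log (1 - ⟪u i, x⟫)) := by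
    have e1 : bi M (u i) (u i) - bi M (u i) (u i) ^ 2 / (1 + q) = q / (1 + q) := by
      rw [← hq]
      field_simp
      ring
    rw [e1]
    have e2 : 0 ≤ q / (1 + q) := by positivity
    have e3 : q / (1 + q) ≤ 1 := by
      rw [div_le_one (by positivity)]
      linarith
    have e4 : 0 ≤ Real.log (1 + ‖x‖) := Real.log_nonneg (by linarith)
    nlinarith [mul_le_mul_of_nonneg_left (hlog2 i) e2]
  -- the old vectors
  have c2 : ∑ j, bi M (u (t j)) (u (t j)) * ⟪u (t j), x⟫ - 1 ≤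
      ∑ j, (bi M (u (t j)) (u (t j)) - bi M (u (t j)) (u i) ^ 2 / (1 + q)) *
        (-Real.log (1 - ⟪u (t j), x⟫)) := by
    have e1 : ∑ j, bi M (u (t j)) (u i) ^ 2 / (1 + q) ≤ 1 := by
      rw [← Finset.sum_div, l5 (u i), ← hq, div_le_one (by positivity)]
      linarith
    have e2 : ∀ j, bi M (u (t j)) (u (t j)) * ⟪u (t j), x⟫ - bi M (u (t j)) (u i) ^ 2 / (1 + q) ≤
        (bi M (u (t j)) (u (t j)) - bi M (u (t j)) (u i) ^ 2 / (1 + q)) *
        (-Real.log (1 - ⟪u (t j), x⟫)) := by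
      intro j
      have f1 : 0 ≤ bi M (u (t j)) (u (t j)) - bi M (u (t j)) (u i) ^ 2 / (1 + q) := by
        rw [← a2]
        obtain ⟨_, _, _, m4, _, _, _⟩ := leverage (fun j => u (t' j)) hM'
        rw [hcons] at m4
        exact m4 _
      have f2 : 0 ≤ bi M (u (t j)) (u i) ^ 2 / (1 + q) := by positivity
      have f3 := hx (t j)
      nlinarith [mul_le_mul_of_nonneg_left (hlog1 (t j)) f1]
    have e3 := Finset.sum_le_sum fun j (_ : j ∈ Finset.univ) => e2 j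
    rw [Finset.sum_sub_distrib] at e3
    linarith
  have c3 : ∑ j, (bi M (u (t j)) (u (t j)) - bi M (u (t j)) (u i) ^ 2 / (1 + q)) *
        (2 * (-Real.log (1 - ⟪u (t j), x⟫))) = 2 * ∑ j, (bi M (u (t j)) (u (t j)) -
        bi M (u (t j)) (u i) ^ 2 / (1 + q)) * (-Real.log (1 - ⟪u (t j), x⟫)) := by
    rw [Finset.mul_sum]
    exact Finset.sum_congr rfl fun j _ => by ring
  rw [c3] at b2
  have c4 : -⟪∑ i, c i • u i, x⟫ = ∑ j, bi M (u (t j)) (u (t j)) * ⟪u (t j), x⟫ := by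
    rw [hcen, inner_neg_left, neg_neg, sum_inner]
    exact Finset.sum_congr rfl fun j _ => real_inner_smul_left _ _ _
  rw [c4] at b1
  have c5 : ‖x‖ ^ 2 / (2 * (1 + ‖x‖)) = ‖x‖ ^ 2 / (1 + ‖x‖) / 2 := by
    field_simp
  rw [c5] at b1
  have c6 := num_aux hR
  rw [hcons] at hval
  push_cast at hval
  have c7 : Real.log (1 + q) ≤ Real.log (Real.exp 3 * α) := by
    rw [Real.log_mul (Real.exp_pos _).ne' (by linarith), Real.log_exp]
    linarith
  exact (Real.log_le_log_iff (by positivity) (by positivity)).1 c7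

/-- Removing a facet: `1 - l ≤ e³ / α`. -/
theorem lev_rem (u : I → EuclideanSpace ℝ (Fin d)) (hu : ∀ i, ‖u i‖ ≤ 1) (t : Fin n → I)
    (hM : 0 < (gm (fun _ => 1) (fun j => u (t j))).det)
    (c : I → ℝ) (hc : ∀ i, 0 ≤ c i) (hc1 : ∀ i, c i ≠ 0 → ‖u i‖ = 1)
    (hcen : ∑ i, c i • u i =
        -∑ j, bi (gm (fun _ => 1) (fun j => u (t j))) (u (t j)) (u (t j)) • u (t j))
    (hiso : ∀ w : EuclideanSpace ℝ (Fin d), ∑ i, c i * ⟪u i, w⟫ ^ 2 = ‖w‖ ^ 2)
    (α : ℝ) (hα : 1 < α)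
    (hmax : ∀ (n' : ℕ) (t' : Fin n' → I), 0 < (gm (fun _ => 1) (fun j => u (t' j))).det →
        ∃ (x : EuclideanSpace ℝ (Fin d))
          (Q : EuclideanSpace ℝ (Fin d) →L[ℝ] EuclideanSpace ℝ (Fin d)),
          (∀ i, ⟪u i, x⟫ + ‖Q (u i)‖ ≤ 1) ∧ (∀ i, ⟪u i, x⟫ < 1) ∧ 0 < Q.det ∧
          Real.log (gx (fun j => u (t' j)) x).det - 2 * Real.log Q.det - n' * Real.log α ≤
            Real.log (gm (fun _ => 1) (fun j => u (t j))).det - n * Real.log α)
    (j : Fin n) :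
    1 - bi (gm (fun _ => 1) (fun j => u (t j))) (u (t j)) (u (t j)) ≤ Real.exp 3 / α := by
  rcases n with _ | m
  · exact j.elim0
  obtain ⟨M, hMdef⟩ : ∃ M, M = gm (fun _ => 1) (fun j => u (t j)) := ⟨_, rfl⟩
  obtain ⟨l1, l2, l3, l4, l5, -, -⟩ := leverage (fun j => u (t j)) hM
  rcases le_or_gt 1 (bi (gm (fun _ => 1) (fun j => u (t j))) (u (t j)) (u (t j))) with h1 | hlt
  · have : 0 ≤ Real.exp 3 / α := by positivity
    linarith
  obtain ⟨a1, a2⟩ := rem_vec (fun j => u (t j)) hM j hlt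
  rw [← hMdef] at l1 l2 l3 l4 l5 a1 a2 hcen hmax hM hlt ⊢
  set l := bi M (u (t j)) (u (t j)) with hl
  have hω : 0 < 1 - l := by linarith
  set t' : Fin m → I := fun i => t (j.succAbove i) with ht'
  have hM' : 0 < (gm (fun _ => 1) (fun i => u (t' i))).det := by
    change 0 < (gm (fun _ => 1) (fun i => u (t (j.succAbove i)))).det
    rw [a1]
    positivity
  obtain ⟨x, Q, hQ, hx, hdet, hval⟩ := hmax m t' hM'
  have hR := norm_nonneg x
  have b1 := log_det_le u hu c hc hc1 hiso x Q hQ hx hdet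
  have b2 := logdet_ge (fun j => u (t' j)) hM' (fun j => ((1 - ⟪u (t' j), x⟫) ^ 2)⁻¹) (fun j => by
    have := hx (t' j)
    have : 0 < 1 - ⟪u (t' j), x⟫ := by linarith
    positivity)
  change _ ≤ Real.log (gx (fun j => u (t' j)) x).det at b2
  have hlogw : ∀ j, Real.log (((1 - ⟪u j, x⟫) ^ 2)⁻¹) = 2 * (-Real.log (1 - ⟪u j, x⟫)) := by
    intro j
    rw [Real.log_inv, Real.log_pow]
    push_cast
    ring
  have hlog1 : ∀ j, ⟪u j, x⟫ ≤ -Real.log (1 - ⟪u j, x⟫) := by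
    intro j
    have h1 : 0 < 1 - ⟪u j, x⟫ := by linarith [hx j]
    have h2 := Real.log_le_sub_one_of_pos h1
    linarith
  have hlog2 : ∀ j, -Real.log (1 + ‖x‖) ≤ -Real.log (1 - ⟪u j, x⟫) := by
    intro j
    have h1 : 0 < 1 - ⟪u j, x⟫ := by linarith [hx j]
    have h3 : |⟪u j, x⟫| ≤ ‖x‖ :=
      (abs_real_inner_le_norm _ _).trans (mul_le_of_le_one_left hR (hu j))
    have h2 : Real.log (1 - ⟪u j, x⟫) ≤ Real.log (1 + ‖x‖) := by
      apply Real.log_le_log h1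
      have := neg_abs_le ⟪u j, x⟫
      linarith
    linarith
  simp only [hlogw] at b2
  have e0 : (gm (fun _ => 1) (fun i => u (t' i))).det = M.det * (1 - l) := a1
  have e0' : ∀ y, bi (gm (fun _ => 1) (fun i => u (t' i))) y y =
      bi M y y + bi M y (u (t j)) ^ 2 / (1 - l) := a2
  rw [e0, Real.log_mul hM.ne' hω.ne'] at b2
  simp only [e0'] at b2
  have hlog3 : 0 ≤ Real.log (1 + ‖x‖) := Real.log_nonneg (by linarith)
  have c2 : ∑ i, bi M (u (t i)) (u (t i)) * ⟪u (t i), x⟫ - 1 - Real.log (1 + ‖x‖) ≤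
      ∑ i, (bi M (u (t' i)) (u (t' i)) + bi M (u (t' i)) (u (t j)) ^ 2 / (1 - l)) *
        (-Real.log (1 - ⟪u (t' i), x⟫)) := by
    have e1 : ∑ i, bi M (u (t' i)) (u (t j)) ^ 2 / (1 - l) = l := by
      have f1 := l5 (u (t j))
      rw [Fin.sum_univ_succAbove _ j] at f1
      rw [← Finset.sum_div, div_eq_iff hω.ne']
      change l ^ 2 + ∑ i, bi M (u (t' i)) (u (t j)) ^ 2 = l at f1
      linarith
    have e2 : ∀ i, bi M (u (t' i)) (u (t' i)) * ⟪u (t' i), x⟫ -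
        bi M (u (t' i)) (u (t j)) ^ 2 / (1 - l) * Real.log (1 + ‖x‖) ≤
        (bi M (u (t' i)) (u (t' i)) + bi M (u (t' i)) (u (t j)) ^ 2 / (1 - l)) *
        (-Real.log (1 - ⟪u (t' i), x⟫)) := by
      intro i
      have f1 : 0 ≤ bi M (u (t' i)) (u (t' i)) := l4 _
      have f2 : 0 ≤ bi M (u (t' i)) (u (t j)) ^ 2 / (1 - l) := by positivity
      have f3 := mul_le_mul_of_nonneg_left (hlog1 (t' i)) f1
      have f4 := mul_le_mul_of_nonneg_left (hlog2 (t' i)) f2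
      linarith
    have e3 := Finset.sum_le_sum fun i (_ : i ∈ Finset.univ) => e2 i
    rw [Finset.sum_sub_distrib, ← Finset.sum_mul, e1] at e3
    have e4 : ∑ i, bi M (u (t i)) (u (t i)) * ⟪u (t i), x⟫ =
        l * ⟪u (t j), x⟫ + ∑ i, bi M (u (t' i)) (u (t' i)) * ⟪u (t' i), x⟫ :=
      Fin.sum_univ_succAbove _ j
    have e5 : l * ⟪u (t j), x⟫ ≤ 1 := by
      have := hx (t j)
      have := (l2 j).1
      nlinarith
    have e6 : l * Real.log (1 + ‖x‖) ≤ Real.log (1 + ‖x‖) := by nlinarith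
    linarith
  have c3 : ∑ i, (bi M (u (t' i)) (u (t' i)) + bi M (u (t' i)) (u (t j)) ^ 2 / (1 - l)) *
        (2 * (-Real.log (1 - ⟪u (t' i), x⟫))) = 2 * ∑ i, (bi M (u (t' i)) (u (t' i)) +
        bi M (u (t' i)) (u (t j)) ^ 2 / (1 - l)) * (-Real.log (1 - ⟪u (t' i), x⟫)) := by
    rw [Finset.mul_sum]
    exact Finset.sum_congr rfl fun j _ => by ring
  rw [c3] at b2
  have c4 : -⟪∑ i, c i • u i, x⟫ = ∑ j, bi M (u (t j)) (u (t j)) * ⟪u (t j), x⟫ := by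
    rw [hcen, inner_neg_left, neg_neg, sum_inner]
    exact Finset.sum_congr rfl fun j _ => real_inner_smul_left _ _ _
  rw [c4] at b1
  have c5 : ‖x‖ ^ 2 / (2 * (1 + ‖x‖)) = ‖x‖ ^ 2 / (1 + ‖x‖) / 2 := by
    field_simp
  rw [c5] at b1
  have c6 := num_aux hR
  push_cast at hval
  have c7 : Real.log (1 - l) ≤ Real.log (Real.exp 3 / α) := by
    rw [Real.log_div (Real.exp_pos _).ne' (by linarith), Real.log_exp]
    linarith
  exact (Real.log_le_log_iff (by positivity) (by positivity)).1 c7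

end

end Pool.Agent.Helper4.QN
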